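import Mathlib

set_option autoImplicit false

/-!
# Closed subgroups of the product of a minimal abelian group and a compact group

Closed graph lemma: if `A` is a minimal abelian group, `G'` a topological group and `h : G' → A` a
homomorphism with closed graph `Γ`, then `h` is continuous. Indeed `A` is algebraically
isomorphic to `(G' × A) ⧸ Γ`, which induces a coarser Hausdorff group topology on `A`.

Let `f : G → A` be a proper continuous homomorphism to a minimal abelian group `A`, and let
`i : G → G'` be a continuous isomorphism to a Hausdorff group. Then `(i, f) : G → G' × A` is proper,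
so `f ∘ i⁻¹` has a closed graph and is continuous, and then `i` is proper because `f` is. So `G` is
minimal. This applies to all closed subgroups `G` of `A × K`, `K` compact, and their
quotients by closed normal subgroups `N`, with `A` replaced by the quotient of `A` by the
projection of `N`.
-/

open Topology

universe u v

namespace Pool.Agent.Results.MP_35204b_gt.AbelianTimesCompact

/-- A topological group is minimal if it has no strictly coarser Hausdorff group topology. -/
def IsMinimal (G : Type u) [Group G] [τ : TopologicalSpace G] : Prop :=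
  ∀ σ : TopologicalSpace G, @IsTopologicalGroup G σ _ → @T2Space G σ →
    (∀ U : Set G, IsOpen[σ] U → IsOpen[τ] U) → σ = τ

/-- A topological group is totally minimal if all quotients by closed normal subgroups are
minimal. -/
def IsTotallyMinimal (G : Type u) [Group G] [TopologicalSpace G] : Prop :=
  ∀ (N : Subgroup G) [N.Normal], IsClosed (N : Set G) → IsMinimal (G ⧸ N)

/-- A topological group is c-minimal if all closed subgroups are minimal. -/
def IsCMinimal (G : Type u) [Group G] [TopologicalSpace G] : Prop :=
  ∀ H : Subgroup G, IsClosed (H : Set G) → IsMinimal H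

/-- A topological group is c-totally minimal if all closed subgroups are totally minimal. -/
def IsCTotallyMinimal (G : Type u) [Group G] [TopologicalSpace G] : Prop :=
  ∀ H : Subgroup G, IsClosed (H : Set G) → IsTotallyMinimal H

variable {A : Type u} [CommGroup A] [TopologicalSpace A] [IsTopologicalGroup A]

/-- The graph of a homomorphism. -/
def graph {G' : Type v} [Group G'] (h : G' →* A) : Subgroup (G' × A) where
  carrier := {p | p.2 = h p.1}
  mul_mem' := by
    intro a b ha hb
    change a.2 * b.2 = h (a.1 * b.1)
    rw [map_mul, show a.2 = h a.1 from ha, show b.2 = h b.1 from hb]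
  one_mem' := (map_one h).symm
  inv_mem' := by
    intro a ha
    change a.2⁻¹ = h a.1⁻¹
    rw [map_inv, show a.2 = h a.1 from ha]

instance {G' : Type v} [Group G'] (h : G' →* A) : (graph h).Normal := by
  refine ⟨fun n hn g => ?_⟩
  change g.2 * n.2 * g.2⁻¹ = h (g.1 * n.1 * g.1⁻¹)
  rw [map_mul, map_mul, map_inv, show n.2 = h n.1 from hn, mul_comm g.2, mul_comm (h g.1),
    mul_assoc, mul_assoc, mul_inv_cancel, mul_inv_cancel]

/-- The closed graph lemma. -/
theorem continuous_of_isClosed_graph (hA : IsMinimal A) {G' : Type v} [Group G']
    [TopologicalSpace G'] [IsTopologicalGroup G'] (h : G' →* A)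
    (hgr : IsClosed (graph h : Set (G' × A))) : Continuous h := by
  let e : A →* (G' × A) ⧸ graph h := (QuotientGroup.mk' (graph h)).comp (MonoidHom.inr G' A)
  have he : ∀ a : A, e a = QuotientGroup.mk (1, a) := fun a => rfl
  have hinj : Function.Injective e := by
    rw [injective_iff_map_eq_one]
    intro a ha
    rw [he, QuotientGroup.eq_one_iff] at ha
    have h1 : a = h 1 := ha
    rw [h1, map_one]
  have hecont : Continuous e :=
    QuotientGroup.continuous_mk.comp (Continuous.prodMk continuous_const continuous_id)
  have key := hA (TopologicalSpace.induced e inferInstance) (topologicalGroup_induced e)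
    (by
      have : T2Space ((G' × A) ⧸ graph h) := by
        have : IsClosed ((graph h : Subgroup (G' × A)) : Set (G' × A)) := hgr
        infer_instance
      exact @T2Space.of_injective_continuous _ _ (TopologicalSpace.induced e inferInstance)
        _ this _ hinj continuous_induced_dom)
    (by
      rintro _ ⟨V, hV, rfl⟩
      exact hV.preimage hecont)
  have hind : IsInducing e := ⟨key.symm⟩
  rw [hind.continuous_iff]
  have h2 : (e ∘ h) = fun g => (QuotientGroup.mk (g, (1 : A)) : (G' × A) ⧸ graph h)⁻¹ := by
    funext g
    change e (h g) = _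
    rw [he, ← QuotientGroup.mk_inv, QuotientGroup.eq]
    change _ * _ = h (_ * _)
    simp
  rw [h2]
  have h3 : Continuous fun g : G' => (QuotientGroup.mk (g, (1 : A)) : (G' × A) ⧸ graph h) :=
    QuotientGroup.continuous_mk.comp (Continuous.prodMk continuous_id continuous_const)
  exact h3.inv

/-- A continuous isomorphism from a group with a proper homomorphism to a minimal abelian group to
a Hausdorff group is proper. -/
theorem isProperMap_of_bijective [T2Space A] (hA : IsMinimal A) {G G' : Type v} [Group G]
    [TopologicalSpace G] [Group G'] [TopologicalSpace G'] [IsTopologicalGroup G'] [T2Space G']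
    (f : G →* A) (hf : IsProperMap f) (i : G ≃* G') (hi : Continuous i) : IsProperMap i := by
  have h1 : IsProperMap (fun g => (i g, f g)) :=
    isProperMap_of_comp_of_t2 (hi.prodMk hf.continuous) continuous_snd hf
  have h2 : Continuous (f.comp i.symm.toMonoidHom) := by
    refine continuous_of_isClosed_graph hA _ ?_
    convert h1.isClosed_range using 1
    ext p
    constructor
    · intro hp
      have hp' : p.2 = f (i.symm p.1) := hp
      refine ⟨i.symm p.1, ?_⟩
      change (i (i.symm p.1), f (i.symm p.1)) = p
      rw [← hp', i.apply_symm_apply]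
    · rintro ⟨g, rfl⟩
      change f g = f (i.symm (i g))
      rw [i.symm_apply_apply]
  refine isProperMap_of_comp_of_t2 hi h2 ?_
  convert hf using 1
  funext g
  change f (i.symm (i g)) = f g
  rw [i.symm_apply_apply]

/-- A group with a proper homomorphism to a minimal abelian group is minimal. -/
theorem isMinimal_of_isProperMap [T2Space A] (hA : IsMinimal A) {G : Type v} [Group G]
    [τ : TopologicalSpace G] (f : G →* A) (hf : IsProperMap f) : IsMinimal G := by
  intro σ hσ hσ2 hle
  have h0 : @Continuous G G τ σ (MulEquiv.refl G) :=
    (@continuous_def _ _ τ σ _).2 fun U hU => hle U hU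
  have h1 : @IsProperMap G G τ σ (MulEquiv.refl G) :=
    @isProperMap_of_bijective A _ _ _ _ hA G G _ τ _ σ hσ hσ2 f hf (MulEquiv.refl G) h0
  refine TopologicalSpace.ext_iff_isClosed.2 fun s => ⟨fun hs => ?_, fun hs => ?_⟩
  · exact (@isOpen_compl_iff _ _ τ).1 (hle _ ((@isOpen_compl_iff _ _ σ).2 hs))
  · have h2 := @IsProperMap.isClosedMap G G τ σ _ h1 s hs
    have h3 : (MulEquiv.refl G) '' s = s := by
      ext x
      simp
    rwa [h3] at h2

variable {K : Type v} [Group K] [TopologicalSpace K]

omit [IsTopologicalGroup A] in
/-- The projection of a closed subgroup of `A × K` to `A`, for `K` compact, is proper. -/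
theorem isProperMap_fst [CompactSpace K] (H : Subgroup (A × K))
    (hH : IsClosed (H : Set (A × K))) :
    IsProperMap ((MonoidHom.fst A K).comp H.subtype) :=
  isProperMap_fst_of_compactSpace.comp hH.isClosedEmbedding_subtypeVal.isProperMap

/-- A proper homomorphism induces a proper homomorphism of quotients. -/
theorem isProperMap_map {H : Type v} [Group H] [TopologicalSpace H] [IsTopologicalGroup H]
    (p : H →* A) (hp : IsProperMap p) (N : Subgroup H) [N.Normal] :
    IsProperMap (QuotientGroup.map N (N.map p) p (Subgroup.le_comap_map p N)) := by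
  have hmk : ∀ x : H, QuotientGroup.map N (N.map p) p (Subgroup.le_comap_map p N)
      (QuotientGroup.mk x) = QuotientGroup.mk (p x) := fun x => rfl
  have hlift : ∀ (x : H) (a : A), (QuotientGroup.mk (p x) : A ⧸ N.map p) = QuotientGroup.mk a →
      ∃ y : H, p y = a ∧ (QuotientGroup.mk y : H ⧸ N) = QuotientGroup.mk x := by
    intro x a h
    rw [QuotientGroup.eq] at h
    obtain ⟨n, hn, hn'⟩ := h
    refine ⟨x * n, ?_, ?_⟩
    · rw [map_mul, hn', mul_inv_cancel_left]
    · exact QuotientGroup.mk_mul_of_mem x hn
  rw [isProperMap_iff_isClosedMap_and_compact_fibers]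
  refine ⟨?_, ?_, ?_⟩
  · refine (QuotientGroup.isQuotientMap_mk (N := N)).continuous_iff.2 ?_
    exact QuotientGroup.continuous_mk.comp hp.continuous
  · intro F hF
    refine (QuotientGroup.isQuotientMap_mk (N := N.map p)).isClosed_preimage.1 ?_
    have h1 := hp.isClosedMap _ (hF.preimage QuotientGroup.continuous_mk)
    convert h1 using 1
    ext a
    constructor
    · rintro ⟨y, hy, hya⟩
      obtain ⟨x, rfl⟩ := QuotientGroup.mk_surjective y
      obtain ⟨z, hz, hz'⟩ := hlift x a hya
      refine ⟨z, ?_, hz⟩
      change (QuotientGroup.mk z : H ⧸ N) ∈ F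
      rwa [hz']
    · rintro ⟨x, hx, rfl⟩
      exact ⟨_, hx, rfl⟩
  · intro z
    obtain ⟨a, rfl⟩ := QuotientGroup.mk_surjective z
    have h1 := (hp.isCompact_preimage (isCompact_singleton (x := a))).image
      (QuotientGroup.continuous_mk (N := N))
    convert h1 using 1
    ext y
    constructor
    · intro hy
      obtain ⟨x, rfl⟩ := QuotientGroup.mk_surjective y
      obtain ⟨z, hz, hz'⟩ := hlift x a hy
      exact ⟨z, hz, hz'⟩
    · rintro ⟨x, hx, rfl⟩
      have hx' : p x = a := hx
      change (QuotientGroup.mk (p x) : A ⧸ N.map p) = _
      rw [hx']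

/-- Let `A` be a Hausdorff abelian topological group and `K` a compact group. If `A` is minimal
then `A × K` is c-minimal, and if `A` is totally minimal then `A × K` is c-totally minimal. -/
theorem result (A : Type u) [CommGroup A] [TopologicalSpace A] [IsTopologicalGroup A] [T2Space A]
    (K : Type v) [Group K] [TopologicalSpace K] [IsTopologicalGroup K] [T2Space K]
    [CompactSpace K] :
    (IsMinimal A → IsCMinimal (A × K)) ∧ (IsTotallyMinimal A → IsCTotallyMinimal (A × K)) := by
  refine ⟨fun hA H hH => isMinimal_of_isProperMap hA _ (isProperMap_fst H hH),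
    fun hA H hH N hN hNc => ?_⟩
  have hp := isProperMap_fst H hH
  have hM : IsClosed ((N.map ((MonoidHom.fst A K).comp H.subtype) : Subgroup A) : Set A) := by
    rw [Subgroup.coe_map]
    exact hp.isClosedMap _ hNc
  have : T2Space (A ⧸ N.map ((MonoidHom.fst A K).comp H.subtype)) := by
    have := hM
    infer_instance
  exact isMinimal_of_isProperMap (hA _ hM) _ (isProperMap_map _ hp N)

end Pool.Agent.Results.MP_35204b_gt.AbelianTimesCompact
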